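import Pool.Agent.W785.FD.Stms

set_option autoImplicit false

open MeasureTheory Metric Set Filter
open scoped ENNReal NNReal Topology

namespace Pool.Agent.W414.FD

open Pool.Agent.W785.FD

universe u

theorem key1 {F : ℝ → ℝ} {G : ℝ → ℝ≥0∞} {l : ℝ} (hl : 0 ≤ l) (hG : Measurable G)
    (hfin : ∫⁻ t in Icc 0 l, G t < ∞)
    (h : ∀ a b, 0 ≤ a → a ≤ b → b ≤ l → ENNReal.ofReal |F a - F b| ≤ ∫⁻ t in Icc a b, G t) :
    ∃ E : Set ℝ, MeasurableSet E ∧ E ⊆ Icc 0 l ∧ (∀ t ∈ E, F t ≠ 0) ∧
      ENNReal.ofReal |F 0 - F l| ≤ ∫⁻ t in E, G t := by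
  set φ : ℝ → ℝ := (Icc 0 l).indicator fun s => (G s).toReal with hφdef
  have hφ : Integrable φ := by
    rw [hφdef, integrable_indicator_iff measurableSet_Icc]
    exact integrable_toReal_of_lintegral_ne_top hG.aemeasurable hfin.ne
  have hΦ : Continuous fun t => ∫ s in (0:ℝ)..t, φ s :=
    intervalIntegral.continuous_primitive (fun a b => hφ.intervalIntegrable) 0
  have hab : ∀ a b, 0 ≤ a → a ≤ b → b ≤ l →
      |F a - F b| ≤ (∫ s in (0:ℝ)..b, φ s) - ∫ s in (0:ℝ)..a, φ s := by
    intro a b ha hab hb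
    have hsub : Icc a b ⊆ Icc 0 l := Icc_subset_Icc ha hb
    have hlt : ∫⁻ t in Icc a b, G t < ∞ := lt_of_le_of_lt (lintegral_mono_set hsub) hfin
    have h1 := (ENNReal.ofReal_le_iff_le_toReal hlt.ne).1 (h a b ha hab hb)
    rw [intervalIntegral.integral_interval_sub_left hφ.intervalIntegrable hφ.intervalIntegrable,
      intervalIntegral.integral_of_le hab, ← integral_Icc_eq_integral_Ioc]
    have h2 : ∫ s in Icc a b, φ s = ∫ s in Icc a b, (G s).toReal := by
      apply setIntegral_congr_fun measurableSet_Icc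
      intro s hs
      simp only [hφdef]
      rw [indicator_of_mem (hsub hs)]
    rw [h2, integral_toReal hG.aemeasurable (ae_lt_top hG hlt.ne)]
    exact h1
  have hF : ContinuousOn F (Icc 0 l) := by
    intro t0 ht0
    rw [ContinuousWithinAt, tendsto_iff_dist_tendsto_zero]
    have h1 : Tendsto (fun t => dist (∫ s in (0:ℝ)..t, φ s) (∫ s in (0:ℝ)..t0, φ s))
        (𝓝[Icc 0 l] t0) (𝓝 0) :=
      tendsto_iff_dist_tendsto_zero.1 (hΦ.continuousWithinAt)
    refine squeeze_zero' (Eventually.of_forall fun _ => dist_nonneg) ?_ h1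
    filter_upwards [self_mem_nhdsWithin] with t ht
    rw [Real.dist_eq, Real.dist_eq]
    rcases le_total t t0 with hle | hle
    · have := hab t t0 ht.1 hle ht0.2
      rw [abs_sub_comm (∫ s in (0:ℝ)..t, φ s)]
      exact this.trans (le_abs_self _)
    · have := hab t0 t ht0.1 hle ht.2
      rw [abs_sub_comm (F t)]
      exact this.trans (le_abs_self _)
  by_cases hz : (Icc 0 l ∩ F ⁻¹' {0}).Nonempty
  · have hcl : IsClosed (Icc 0 l ∩ F ⁻¹' {0}) :=
      hF.preimage_isClosed_of_isClosed isClosed_Icc isClosed_singleton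
    have hcp : IsCompact (Icc 0 l ∩ F ⁻¹' {0}) :=
      isCompact_Icc.of_isClosed_subset hcl inter_subset_left
    obtain ⟨ha1, ha2⟩ := hcp.sInf_mem hz
    obtain ⟨hb1, hb2⟩ := hcp.sSup_mem hz
    set a := sInf (Icc 0 l ∩ F ⁻¹' {0}) with ha
    set b := sSup (Icc 0 l ∩ F ⁻¹' {0}) with hb
    have hale : ∀ t ∈ Icc 0 l, F t = 0 → a ≤ t := fun t ht h0 => csInf_le hcp.bddBelow ⟨ht, h0⟩
    have hble : ∀ t ∈ Icc 0 l, F t = 0 → t ≤ b := fun t ht h0 => le_csSup hcp.bddAbove ⟨ht, h0⟩
    have hFa : F a = 0 := ha2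
    have hFb : F b = 0 := hb2
    have hab' : a ≤ b := hale b hb1 hFb
    refine ⟨Ico 0 a ∪ Ioc b l, measurableSet_Ico.union measurableSet_Ioc, ?_, ?_, ?_⟩
    · rintro t (ht | ht)
      · exact ⟨ht.1, ht.2.le.trans ha1.2⟩
      · exact ⟨hb1.1.trans ht.1.le, ht.2⟩
    · rintro t (ht | ht) h0
      · exact absurd (hale t ⟨ht.1, ht.2.le.trans ha1.2⟩ h0) (not_le.2 ht.2)
      · exact absurd (hble t ⟨hb1.1.trans ht.1.le, ht.2⟩ h0) (not_le.2 ht.1)
    · have hdis : Disjoint (Ico 0 a) (Ioc b l) := by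
        rw [Set.disjoint_left]
        intro t h1 h2
        exact absurd (h1.2.trans_le hab') (not_lt.2 h2.1.le)
      rw [lintegral_union measurableSet_Ioc hdis]
      have e1 : ∫⁻ t in Ico 0 a, G t = ∫⁻ t in Icc 0 a, G t := setLIntegral_congr Ico_ae_eq_Icc
      have e2 : ∫⁻ t in Ioc b l, G t = ∫⁻ t in Icc b l, G t := setLIntegral_congr Ioc_ae_eq_Icc
      rw [e1, e2]
      have h1 := h 0 a le_rfl ha1.1 ha1.2
      have h2 := h b l hb1.1 hb1.2 le_rfl
      calc ENNReal.ofReal |F 0 - F l| ≤ ENNReal.ofReal (|F 0 - F a| + |F b - F l|) := by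
            apply ENNReal.ofReal_le_ofReal
            rw [hFa, hFb, sub_zero, zero_sub, abs_neg]
            exact abs_sub _ _
        _ = ENNReal.ofReal |F 0 - F a| + ENNReal.ofReal |F b - F l| :=
            ENNReal.ofReal_add (abs_nonneg _) (abs_nonneg _)
        _ ≤ _ := add_le_add h1 h2
  · refine ⟨Icc 0 l, measurableSet_Icc, subset_rfl, ?_, h 0 l le_rfl hl le_rfl⟩
    intro t ht h0
    exact hz ⟨t, ht, h0⟩

section
variable {X : Type u} [MetricSpace X]

/-- the subcurve on `[a, b]` -/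
def sub (c : Crv X) (a b : ℝ) (h : a ≤ b) : Crv X where
  l := b - a
  nonneg := sub_nonneg.2 h
  γ := fun t => c.γ (a + t)
  lip := by
    have h1 : LipschitzWith 1 fun t : ℝ => a + t := LipschitzWith.of_dist_le_mul fun x y => by
      simp
    have h2 := c.lip.comp h1
    rw [mul_one] at h2
    exact h2

theorem sub_int (c : Crv X) (a b : ℝ) (h : a ≤ b) (g : X → ℝ≥0∞) :
    (sub c a b h).int g = ∫⁻ t in Icc a b, g (c.γ t) := by
  unfold Crv.int sub
  simp only
  rw [← lintegral_indicator measurableSet_Icc, ← lintegral_indicator measurableSet_Icc,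
    ← lintegral_add_left_eq_self ((Icc a b).indicator fun t => g (c.γ t)) a]
  congr 1
  funext t
  by_cases ht : t ∈ Icc 0 (b - a)
  · have ht' : a + t ∈ Icc a b := ⟨by linarith [ht.1], by linarith [ht.2]⟩
    rw [indicator_of_mem ht, indicator_of_mem ht']
  · have ht' : a + t ∉ Icc a b := fun h' => ht ⟨by linarith [h'.1], by linarith [h'.2]⟩
    rw [indicator_of_notMem ht, indicator_of_notMem ht']

theorem sub_ineq {c : Crv X} {a b : ℝ} (h : a ≤ b) {f : X → ℝ} {g : X → ℝ≥0∞}
    (hc : CrvIneq f g (sub c a b h)) :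
    ENNReal.ofReal |f (c.γ a) - f (c.γ b)| ≤ ∫⁻ t in Icc a b, g (c.γ t) := by
  unfold CrvIneq at hc
  rw [sub_int] at hc
  have e1 : (sub c a b h).γ 0 = c.γ a := by simp [sub]
  have e2 : (sub c a b h).γ (sub c a b h).l = c.γ b := by simp [sub]
  rwa [e1, e2] at hc

end

variable {X : Type u} [MetricSpace X] [MeasurableSpace X] [BorelSpace X]

theorem locs : S_LOCS X := by
  intro f g hfg hfin S hS hsub
  refine ⟨hfg.1.indicator hS, fun c => ?_⟩
  have hγ : Measurable c.γ := c.lip.continuous.measurable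
  obtain ⟨E, hE, hEl, hEF, hle⟩ := key1 (F := fun t => f (c.γ t)) (G := fun t => g (c.γ t)) c.nonneg
    (hfg.1.comp hγ) (hfin c) (fun a b _ hab _ => sub_ineq hab (hfg.2 _))
  unfold CrvIneq Crv.int
  refine hle.trans ?_
  calc ∫⁻ t in E, g (c.γ t) ≤ ∫⁻ t in E, S.indicator g (c.γ t) := by
        apply setLIntegral_mono' hE
        intro t ht
        have h1 : c.γ t ∈ S := hsub (hEF t ht)
        rw [indicator_of_mem h1]
    _ ≤ _ := lintegral_mono_set hEl

theorem loc (μ : Measure X) (p : ℝ) (hp : 1 < p) : S_LOC μ p := by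
  intro f g hfg hgfin S hS hnull
  obtain ⟨hg, h, hh, hhfin, hc⟩ := hfg
  have hp0 : 0 < p := by linarith
  refine ⟨hg.indicator hS, ?_⟩
  set N := toMeasurable μ ({x | f x ≠ 0} \ S) with hN
  have hNm : MeasurableSet N := measurableSet_toMeasurable _ _
  have hN0 : μ N = 0 := by rw [hN, measure_toMeasurable, hnull]
  have hNsub : {x | f x ≠ 0} \ S ⊆ N := subset_toMeasurable _ _
  have hind : Measurable (N.indicator fun _ : X => (∞ : ℝ≥0∞)) := measurable_const.indicator hNm
  refine ⟨fun x => (h x + g x) + N.indicator (fun _ => ∞) x, (hh.add hg).add hind, ?_, ?_⟩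
  · have h1 : ∀ᵐ x ∂μ, x ∉ N := measure_eq_zero_iff_ae_notMem.1 hN0
    have h2 : ∫⁻ x, ((h x + g x) + N.indicator (fun _ => ∞) x) ^ p ∂μ =
        ∫⁻ x, (h x + g x) ^ p ∂μ := by
      apply lintegral_congr_ae
      filter_upwards [h1] with x hx
      rw [indicator_of_notMem hx, add_zero]
    rw [h2]
    exact ENNReal.lintegral_rpow_add_lt_top_of_lintegral_rpow_lt_top hh.aemeasurable hhfin hgfin
      hp.le
  · intro c
    by_cases hcint : c.int (fun x => (h x + g x) + N.indicator (fun _ => ∞) x) = ∞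
    · exact Or.inr hcint
    left
    have hγ : Measurable c.γ := c.lip.continuous.measurable
    have hlt : c.int (fun x => (h x + g x) + N.indicator (fun _ => ∞) x) < ∞ := lt_top_iff_ne_top.2 hcint
    have ih : c.int h < ∞ := lt_of_le_of_lt (lintegral_mono fun t => by
      simp only
      exact (le_self_add.trans le_self_add)) hlt
    have ig : c.int g < ∞ := lt_of_le_of_lt (lintegral_mono fun t => by
      simp only
      exact (le_add_self.trans le_self_add)) hlt
    have iN : ∫⁻ t in Icc 0 c.l, N.indicator (fun _ => (∞ : ℝ≥0∞)) (c.γ t) < ∞ :=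
      lt_of_le_of_lt (lintegral_mono fun t => by
        simp only
        exact le_add_self) hlt
    have hae : ∀ᵐ t ∂(volume.restrict (Icc 0 c.l)), c.γ t ∉ N := by
      filter_upwards [ae_lt_top (hind.comp hγ) iN.ne] with t ht hmem
      simp only [Function.comp_apply, indicator_of_mem hmem, lt_self_iff_false] at ht
    obtain ⟨E, hE, hEl, hEF, hle⟩ := key1 (F := fun t => f (c.γ t)) (G := fun t => g (c.γ t))
      c.nonneg (hg.comp hγ) ig (fun a b ha hab hb => by
        apply sub_ineq hab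
        rcases hc (sub c a b hab) with h1 | h1
        · exact h1
        · exfalso
          rw [sub_int] at h1
          have h2 : ∫⁻ t in Icc a b, h (c.γ t) ≤ c.int h :=
            lintegral_mono_set (Icc_subset_Icc ha hb)
          rw [h1] at h2
          exact absurd ih (not_lt.2 h2))
    unfold CrvIneq Crv.int
    refine hle.trans ?_
    calc ∫⁻ t in E, g (c.γ t) ≤ ∫⁻ t in E, S.indicator g (c.γ t) := by
          apply lintegral_mono_ae
          have h3 : ∀ᵐ t ∂(volume.restrict E), c.γ t ∉ N :=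
            ae_mono (Measure.restrict_mono hEl le_rfl) hae
          filter_upwards [h3, ae_restrict_mem hE] with t ht htE
          have h1 : c.γ t ∈ S := by
            by_contra hS'
            exact ht (hNsub ⟨hEF t htE, hS'⟩)
          rw [indicator_of_mem h1]
      _ ≤ _ := lintegral_mono_set hEl

theorem main {X : Type*} [MetricSpace X] [ProperSpace X] [MeasurableSpace X] [BorelSpace X]
    (μ : Measure X) (p : ℝ) (hp : 1 < p) : S_LOC μ p ∧ S_LOCS X :=
  ⟨loc μ p hp, locs⟩

end Pool.Agent.W414.FD
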